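import Pool.Agent.Helper35.HS3.Radial
import Pool.Agent.Helper30.HS3.Conv

open InnerProductSpace
open scoped ContDiff Laplacian Gradient

namespace Pool.Agent.Results.MP_66e6f4_an.BoundedRadial

/-- `u` is a classical (`C²`) solution of `Δ u = f(u)` on all of `ℝ³`. -/
def IsSolution (f : ℝ → ℝ) (u : EuclideanSpace ℝ (Fin 3) → ℝ) : Prop :=
  ContDiff ℝ 2 u ∧ ∀ x, Δ u x = f (u x)

/-- `u(x) = V(⟨e, x⟩ + c)` for some unit vector `e`, real `c` and some function `V` whatsoever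
(no regularity and no equation is asked of `V`). -/
def IsOneDimensional (u : EuclideanSpace ℝ (Fin 3) → ℝ) : Prop :=
  ∃ (e : EuclideanSpace ℝ (Fin 3)) (c : ℝ) (V : ℝ → ℝ), ‖e‖ = 1 ∧ ∀ x, u x = V (⟪e, x⟫_ℝ + c)

/-- **A bounded counterexample to Q1.** There are `f ∈ C_c^∞(ℝ)`, `f ≥ 0`, and a bounded smooth
solution `u` of `Δ u = f(u)` on `ℝ³` with values in `[-1, 0)` (so `{u > 0}` is empty, in particular
contained in the half-space `{x₁ > 0}`), with exactly one critical point, which is not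
one-dimensional. -/
theorem result :
    ∃ f : ℝ → ℝ, ContDiff ℝ ∞ f ∧ HasCompactSupport f ∧ (∀ t, 0 ≤ f t) ∧
      ∃ u : EuclideanSpace ℝ (Fin 3) → ℝ, IsSolution f u ∧ ContDiff ℝ ∞ u ∧
        (∀ x, -1 ≤ u x ∧ u x < 0) ∧ (∀ x, ∇ u x = 0 ↔ x = 0) ∧
        {x | 0 < u x} ⊆ {x | 0 < x 0} ∧ ¬ IsOneDimensional u := by
  refine ⟨Pool.Agent.Helper35.HS3.Radial.ff, Pool.Agent.Helper35.HS3.Radial.ff_contDiff,
    Pool.Agent.Helper35.HS3.Radial.ff_compact, Pool.Agent.Helper35.HS3.Radial.ff_nonneg,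
    Pool.Agent.Helper35.HS3.Radial.uu, ?_, Pool.Agent.Helper35.HS3.Radial.uu_contDiff,
    fun x => ⟨Pool.Agent.Helper35.HS3.Radial.uu_ge x, Pool.Agent.Helper35.HS3.Radial.uu_lt x⟩,
    fun x => ?_, fun x hx => ?_, ?_⟩
  · have h2 : ContDiff ℝ 2 Pool.Agent.Helper35.HS3.Radial.uu :=
      contDiff_infty.1 Pool.Agent.Helper35.HS3.Radial.uu_contDiff 2
    exact ⟨h2, fun x => by
      rw [Pool.Agent.Helper30.HS3.conv h2 x]; exact Pool.Agent.Helper35.HS3.Radial.lap_uu x⟩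
  · refine Iff.trans ?_ Pool.Agent.Helper35.HS3.Radial.fderiv_uu_eq_zero
    unfold gradient
    exact LinearIsometryEquiv.map_eq_zero_iff _
  · exact absurd hx (not_lt.2 (Pool.Agent.Helper35.HS3.Radial.uu_lt x).le)
  · rintro ⟨e, c, V, -, h⟩
    exact Pool.Agent.Helper35.HS3.Radial.not_oneDim h

end Pool.Agent.Results.MP_66e6f4_an.BoundedRadial
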