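import Pool.Agent.Helper26.HS9

open InnerProductSpace
open scoped ContDiff Laplacian Gradient

namespace Pool.Agent.Results.MP_66e6f4_an.HalfSpace

/-- `u` is a classical (`C²`) solution of `Δ u = f(u)` on all of `ℝ³`. -/
def IsSolution (f : ℝ → ℝ) (u : EuclideanSpace ℝ (Fin 3) → ℝ) : Prop :=
  ContDiff ℝ 2 u ∧ ∀ x, Δ u x = f (u x)

/-- `u(x) = V(⟨e, x⟩ + c)` for some unit vector `e`, real `c` and some function `V` whatsoever
(no regularity and no equation is asked of `V`). -/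
def IsOneDimensional (u : EuclideanSpace ℝ (Fin 3) → ℝ) : Prop :=
  ∃ (e : EuclideanSpace ℝ (Fin 3)) (c : ℝ) (V : ℝ → ℝ), ‖e‖ = 1 ∧ ∀ x, u x = V (⟪e, x⟫_ℝ + c)

/-- **Negative answer to Q1, for every nonlinearity.** For every `f ∈ C¹_c(ℝ)` (in particular for
every `f ∈ C_c^∞(ℝ)` with `f ≥ 0`) the equation `Δ u = f(u)` has a `C²` solution on `ℝ³` which has
no critical point at all, whose positivity set is nonempty and contained in the half-space
`{x₁ > 0}` (the first coordinate is `x 0`), and which is not one-dimensional. -/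
theorem result (f : ℝ → ℝ) (hf : ContDiff ℝ 1 f) (hc : HasCompactSupport f) :
    ∃ u : EuclideanSpace ℝ (Fin 3) → ℝ, IsSolution f u ∧ (∀ x, ∇ u x ≠ 0) ∧
      {x | 0 < u x}.Nonempty ∧ {x | 0 < u x} ⊆ {x | 0 < x 0} ∧ ¬ IsOneDimensional u := by
  obtain ⟨u, h1, h2, h3, h4, h5, h6⟩ := Pool.Agent.Helper26.HS.main_exists hf hc
  exact ⟨u, ⟨h1, h2⟩, h3, h5, h4, h6⟩

end Pool.Agent.Results.MP_66e6f4_an.HalfSpace
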