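import Pool.Agent.Helper35.HS3.Main
import Pool.Agent.Helper35.HS3.Mono
import Pool.Agent.Helper30.HS3.Conv
import Pool.Agent.Helper89.HS3.CUT
import Pool.Agent.Helper87.HS3.HPB
import Pool.Agent.Helper49.HS3.MV
import Pool.Agent.Helper59.HS3.MAXP
import Pool.Agent.Helper31.HS3.MINU
import Pool.Agent.Helper46.HS3.POLE
import Pool.Agent.Helper19.HS3.SEG
import Pool.Agent.Helper79.HS3.SOB
import Pool.Agent.Helper13.HS3.APX
import Pool.Agent.Helper20.HS3.BOCH
import Pool.Agent.Helper35.HS3.EN1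
import Pool.Agent.Helper40.HS3.EN2
import Pool.Agent.Helper51.HS3.PL
import Pool.Agent.Helper61.HS3.LAYER
import Pool.Agent.Helper19.HS3.LBB
import Pool.Agent.Helper61.HS3.LB
import Pool.Agent.Helper83.HS3.BDA
import Pool.Agent.Helper59.HS3.THE
import Pool.Agent.Helper8.HS3.SUPB
import Pool.Agent.Helper13.HS3.TWO
import Pool.Agent.Helper77.HS3.EXBD
import Pool.Agent.Helper9.HS3.FLX
import Pool.Agent.Helper16.HS3.CACC
import Pool.Agent.Helper38.HS3.STRI
import Pool.Agent.Helper87.HS3.STR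
import Pool.Agent.Helper49.HS3.SMA
import Pool.Agent.Helper40.HS3.MEAS
import Pool.Agent.Helper42.HS3.PBD
import Pool.Agent.Helper3.HS3.GRON
import Pool.Agent.Helper34.HS3.PSI
import Pool.Agent.Helper13.HS3.SUPG
import Pool.Agent.Helper94.HS3.MOLL
import Pool.Agent.Helper40.HS3.ODE1
import Pool.Agent.Helper67.HS3.LIOU
import Pool.Agent.Helper8.HS3.ONED
import Pool.Agent.Helper20.HS3.RIG
import Pool.Agent.Helper65.HS3.FQG
import Pool.Agent.Helper87.HS3.FQA
import Pool.Agent.Helper31.HS3.FQH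
import Pool.Agent.Helper77.HS3.FQODE
import Pool.Agent.Helper42.HS3.DOUB
import Pool.Agent.Helper15.HS3.LING

open InnerProductSpace
open scoped ContDiff Laplacian

namespace Pool.Agent.Results.MP_66e6f4_an.PolynomialGrowth

/-- `u` is a classical (`C²`) solution of `Δ u = f(u)` on all of `ℝ³`. -/
def IsSolution (f : ℝ → ℝ) (u : EuclideanSpace ℝ (Fin 3) → ℝ) : Prop :=
  ContDiff ℝ 2 u ∧ ∀ x, Δ u x = f (u x)

open Pool.Agent.Helper35.HS3 in
theorem main : MAIN_stmt := by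
  have hCUT := Pool.Agent.Helper89.HS3.CUT.proof
  have hHPB := Pool.Agent.Helper87.HS3.HPB.proof
  have hMV := Pool.Agent.Helper49.HS3.MV.proof
  have hMAXP := Pool.Agent.Helper59.HS3.MAXP.proof
  have hMINU := Pool.Agent.Helper31.HS3.MINU.proof hMAXP
  have hPOLE := Pool.Agent.Helper46.HS3.POLE.proof
  have hSEG := Pool.Agent.Helper19.HS3.SEG.proof
  have hSOB := Pool.Agent.Helper79.HS3.SOB.proof hCUT
  have hAPX := Pool.Agent.Helper13.HS3.APX.proof
  have hBOCH := Pool.Agent.Helper20.HS3.BOCH.proof hAPX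
  have hEN1 := Pool.Agent.Helper35.HS3.EN1.proof hBOCH
  have hEN2 := Pool.Agent.Helper40.HS3.EN2.proof hEN1 hBOCH
  have hPL := Pool.Agent.Helper51.HS3.PL.proof hMAXP
  have hLAYER := Pool.Agent.Helper61.HS3.LAYER.proof hCUT hHPB
  have hLBB := Pool.Agent.Helper19.HS3.LBB.proof hMV hMINU hPOLE
  have hLB := Pool.Agent.Helper61.HS3.LB.proof hLBB
  have hBDA := Pool.Agent.Helper83.HS3.BDA.proof hLAYER hLB
  have hTHE := Pool.Agent.Helper59.HS3.THE.proof
  have hSUPB := Pool.Agent.Helper8.HS3.SUPB.proof hMV hTHE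
  have hTWO := Pool.Agent.Helper13.HS3.TWO.proof hMV hSUPB
  have hEXBD := Pool.Agent.Helper77.HS3.EXBD.proof hPL hMV hBDA
  have hFLX := Pool.Agent.Helper9.HS3.FLX.proof hCUT hHPB
  have hCACC := Pool.Agent.Helper16.HS3.CACC.proof hCUT hHPB hFLX
  have hSTRI := Pool.Agent.Helper38.HS3.STRI.proof
  have hSTR := Pool.Agent.Helper87.HS3.STR.proof hSTRI
  have hSMA := Pool.Agent.Helper49.HS3.SMA.proof
  have hMEAS := Pool.Agent.Helper40.HS3.MEAS.proof hSMA hSTR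
  have hPBD := Pool.Agent.Helper42.HS3.PBD.proof hEN2 hSOB hMEAS
  have hGRON := Pool.Agent.Helper3.HS3.GRON.proof
  have hPSI := Pool.Agent.Helper34.HS3.PSI.proof
  have hSUPG := Pool.Agent.Helper13.HS3.SUPG.proof hMV
  have hMOLL := Pool.Agent.Helper94.HS3.MOLL.proof
  have hODE1 := Pool.Agent.Helper40.HS3.ODE1.proof
  have hLIOU := Pool.Agent.Helper67.HS3.LIOU.proof hMINU hSEG
  have hONED := Pool.Agent.Helper8.HS3.ONED.proof
  have hRIG := Pool.Agent.Helper20.HS3.RIG.proof hGRON hPSI hSUPG hMOLL hODE1 hLIOU hONED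
  have hFQG := Pool.Agent.Helper65.HS3.FQG.proof
  have hFQA := Pool.Agent.Helper87.HS3.FQA.proof
  have hFQH := Pool.Agent.Helper31.HS3.FQH.proof hFQG hFQA
  have hFQODE := Pool.Agent.Helper77.HS3.FQODE.proof
  have hDOUB := Pool.Agent.Helper42.HS3.DOUB.proof hFQA hFQH hFQODE
  have hLING := Pool.Agent.Helper15.HS3.LING.proof hLB hSUPB hDOUB
  exact Pool.Agent.Helper35.HS3.main hTWO hLING hEXBD hCACC hPBD hRIG

/-- **Rigidity for solutions of polynomial growth.** Let `f ∈ C¹_c(ℝ)`, `f ≥ 0`, and let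
`u ∈ C²(ℝ³)` solve `Δ u = f(u)`, with `{u > 0}` contained in the half-space `{x₁ > 0}` (the first
coordinate is `x 0`) and `u x ≤ C (1 + |x|)^k` for some `C`, `k`. Assume that
(i) every zero `b ≤ 0` of `f` has `f = 0` on `(-∞, b]` (in particular, this holds if `f = 0` on
`(-∞, 0]`), or (ii) `u x ≤ b x₁` on `{x₁ ≤ 0}` for some `b > 0`.
Then `u x = V (x₁)` for a `V ∈ C²(ℝ)` with `V'' = f(V)`, and either `V' > 0` everywhere (so `u` has
no critical point) or `V` is constant. -/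
theorem result (f : ℝ → ℝ) (hf : ContDiff ℝ 1 f) (hc : HasCompactSupport f) (h0 : ∀ t, 0 ≤ f t)
    (u : EuclideanSpace ℝ (Fin 3) → ℝ) (hu : IsSolution f u) (hn : {x | 0 < u x} ⊆ {x | 0 < x 0})
    (hg : ∃ (C : ℝ) (k : ℕ), ∀ x, u x ≤ C * (1 + ‖x‖) ^ k)
    (hfu : (∀ b ≤ 0, f b = 0 → ∀ t ≤ b, f t = 0) ∨ ∃ b > 0, ∀ x, x 0 ≤ 0 → u x ≤ b * x 0) :
    ∃ V : ℝ → ℝ, ContDiff ℝ 2 V ∧ (∀ s, deriv (deriv V) s = f (V s)) ∧ (∀ x, u x = V (x 0)) ∧
      ((∀ s, 0 < deriv V s) ∨ ∀ s, V s = V 0) := by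
  obtain ⟨C, k, hg⟩ := hg
  have hneg : ∀ x : EuclideanSpace ℝ (Fin 3), x 0 ≤ 0 → u x ≤ 0 := by
    intro x hx
    by_contra h
    push Not at h
    exact absurd (hn h) (not_lt.2 hx)
  obtain ⟨V, hV, he, huV⟩ := Pool.Agent.Helper35.HS3.final main hf hc h0 hu.1
    (fun x => by rw [← Pool.Agent.Helper30.HS3.conv hu.1 x]; exact hu.2 x) hneg hg hfu
  obtain ⟨K, -, -, hK⟩ := Pool.Agent.Helper35.HS3.exists_K hf hc
  refine ⟨V, hV, he, huV, Pool.Agent.Helper35.HS3.deriv_pos_or_const h0 hK hV he fun s hs => ?_⟩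
  have h1 := huV (EuclideanSpace.single 0 s)
  have h2 := hneg (EuclideanSpace.single 0 s) (by simpa using hs)
  rw [h1] at h2
  simpa using h2

end Pool.Agent.Results.MP_66e6f4_an.PolynomialGrowth
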